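import Pool.Agent.H40.Js9

set_option autoImplicit false

namespace Pool.Agent.Results.MP_ec7d96_lc.Model

open Pool.Agent.H40.Bspt Pool.Agent.H40.Jz Pool.Agent.H40.Js Set Filter

def c (i : ℕ) : Set (ℕ × ℕ) := {x | x.1 = i}

def cc (U : Set (ℕ × ℕ)) : Set ℕ := {i | ∀ᶠ k in cofinite, (i, k) ∈ U}

theorem ce {U : Set (ℕ × ℕ)} {i : ℕ} (h : i ∈ cc U) : ∀ᶠ k in cofinite, (i, k) ∈ U := h

theorem col {p : ℕ × ℕ → Prop} (h : ∀ᶠ x in cofinite, p x) (i : ℕ) : ∀ᶠ k in cofinite, p (i, k) :=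
  (Prod.mk_right_injective i).tendsto_cofinite.eventually h

theorem key (U : PS (Pres (Cls c)) (ℕ × ℕ)) (hU : U.1.Infinite) :
    (cc U.1).Nonempty ∧ ((cc U.1).Finite ∨ (cc U.1)ᶜ.Finite) := by
  obtain ⟨F, h1, h2, h3⟩ := cls_sat (s := fun _ : Unit => U) ((ps_fix U).mono fun _ h _ => h)
  have h4 : ∀ y ∈ F, ∃ j, ∃ t : Prop, ∀ᶠ x in cofinite, x ∈ y ↔ t ∧ x.1 = j := fun y hy => by
    rcases h2 y hy with h | ⟨j, h⟩
    · exact ⟨0, False, h.subset fun x hx => by simpa using hx⟩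
    · exact ⟨j, True, h.mono fun x hx => by rw [true_and]; exact iff_of_eq hx⟩
  choose! j t h4 using h4
  have h5 := (eventually_all_finite h1).2 h4
  have h6 : ∀ i, {k | (i, k) ∈ U.1}.Infinite → i ∈ cc U.1 := fun i hi => by
    obtain ⟨k, a, b⟩ := ((frequently_cofinite_iff_infinite.2 hi).and_eventually (col h5 i)).exists
    exact (col h5 i).mono fun l e => h3 () _ _ (fun y hy => (b y hy).trans (e y hy).symm) a
  by_cases h : ∃ a ∈ U.1, ∀ y ∈ F, a ∉ y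
  · obtain ⟨a, ha, h⟩ := h
    have : (cc U.1)ᶜ.Finite := (h1.image j).subset fun i hi => by
      by_contra e
      exact hi ((col h5 i).mono fun k hk => h3 () a _ (fun y hy => iff_of_false (h y hy)
        fun b => e ⟨y, hy, ((hk y hy).1 b).2.symm⟩) ha)
    exact ⟨(compl_compl (cc U.1) ▸ this.infinite_compl).nonempty, Or.inr this⟩
  · push Not at h
    refine ⟨?_, Or.inl ((h1.image j).subset fun i hi => ?_)⟩
    · by_contra e
      refine hU ((Finite.union h5 ((h1.image j).biUnion fun i _ => Finite.image (Prod.mk i)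
        (not_infinite.1 fun b => e ⟨i, h6 i b⟩))).subset fun x hx => ?_)
      obtain ⟨y, hy, a⟩ := h x hx
      by_cases b : ∀ y ∈ F, x ∈ y ↔ t y ∧ x.1 = j y
      · exact Or.inr (mem_biUnion (mem_image_of_mem j hy) ⟨x.2, by
          rw [← ((b y hy).1 a).2]; exact ⟨hx, rfl⟩⟩)
      · exact Or.inl b
    · obtain ⟨k, a, b⟩ := ((ce hi).and (col h5 i)).exists
      obtain ⟨y, hy, e⟩ := h _ a
      exact ⟨y, hy, ((b y hy).1 e).2.symm⟩

theorem result : ∃ (M : Type) (E : M → M → Prop), IsZF E ∧ ∃ ν : ℕ → M, Numer E ν ∧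
    ∃ A, SFBI E ν A ∧ ¬ DFBI E ν A := by
  obtain ⟨J⟩ := cls_js c
  refine ⟨J.M, J.E, J.zf, J.nu, J.numer, J.sA unA, ⟨fun i => J.fA (qFam (Cls c) (some i)),
    J.seq_of (t := .w (.w .a)) (Eventually.of_forall fun g _ => qFam_fix _ _ g),
    fun i => cls_gfb J (infinite_of_injective_forall_mem (Prod.mk_right_injective i) fun _ => rfl),
    fun i j h => ⟨_, _, J.memS.2 (clsS_mem _), J.memS.2 (clsS_mem _), ?_⟩, fun n U hU => ?_⟩, ?_⟩
  · rw [J.few_iff fun z h => J.isA h.1]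
    simp only [J.memA]
    exact finite_empty.subset fun x hx => h (hx.1.symm.trans hx.2)
  · rw [J.few_iff fun z h => J.isA h.1]
    have : ∀ᶠ x in cofinite, ∀ i ∈ Finset.range n, J.E (J.nA x) (U i) → x.1 = i := by
      rw [eventually_all_finset]
      intro i hi
      obtain ⟨u, a, e⟩ := J.elS (hU i (Finset.mem_range.1 hi))
      filter_upwards [a] with x hx h
      rw [e, J.memA] at h
      exact Eq.mp hx h
    intro h
    obtain ⟨k, a, b⟩ := ((col this n).and (col h.compl_mem_cofinite n)).exists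
    exact b ⟨J.memA.2 trivial, fun i hi e => hi.ne' (a i (Finset.mem_range.2 hi) e)⟩
  rintro ⟨V, -, hV⟩
  have step : ∀ n i j, 1 ≤ n → 1 ≤ i → i ≤ 2 ^ n → 1 ≤ j → j ≤ 2 ^ n → i ≠ j → ∀ W G,
      J.E (J.sA W) (V n i) → J.E (J.sA G) (V n j) → ∃ U U', J.E (J.sA U) (V (n + 1) (2 * i - 1)) ∧
        J.E (J.sA U') (V (n + 1) (2 * i)) ∧ cc U.1 ⊆ cc W.1 \ cc G.1 ∧ cc U'.1 ⊆ cc W.1 := by
    intro n i j hn h1 h2 h3 h4 h5 W G hW hG
    obtain ⟨U, U', a, b, d, e⟩ := (hV n hn).2.1 i j h1 h2 h3 h4 h5 _ _ hW hG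
    obtain ⟨U, -, rfl⟩ := J.subA ((((hV (n + 1) (by omega)).1 _ (by omega) (by omega)).1.2.1 _ a).1)
    obtain ⟨U', -, rfl⟩ := J.subA ((((hV (n + 1) (by omega)).1 _ (by omega) (by omega)).1.2.1 _ b).1)
    rw [J.few_iff fun z h => h.1.elim J.isA J.isA] at d e
    simp only [J.memA] at d e
    have d' := col d.compl_mem_cofinite
    refine ⟨U, U', a, b, fun k hk => ⟨((ce hk).and (d' k)).mono fun l h => ?_, fun h => ?_⟩,
      fun k hk => ((ce hk).and (d' k)).mono fun l h => ?_⟩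
    · exact by_contra fun f => h.2 ⟨Or.inl h.1, f⟩
    · obtain ⟨l, f1, f2, f3⟩ := ((ce hk).and ((ce h).and (col e.compl_mem_cofinite k))).exists
      exact f3 ⟨Or.inl f1, f2⟩
    · exact by_contra fun f => h.2 ⟨Or.inr h.1, f⟩
  have ky : ∀ n i, 1 ≤ n → 1 ≤ i → i ≤ 2 ^ n → ∀ W, J.E (J.sA W) (V n i) → _ :=
    fun n i a b d W h => key W fun e => ((hV n a).1 i b d).2.2.2.1 _ h (J.finA.2 e)
  have ne : ∀ n i, 1 ≤ n → 1 ≤ i → i ≤ 2 ^ n → ∃ W, J.E (J.sA W) (V n i) := fun n i a b d => by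
    obtain ⟨W, h⟩ := ((hV n a).1 i b d).1.1
    obtain ⟨W, -, rfl⟩ := J.subA (((hV n a).1 i b d).1.2.1 _ h).1
    exact ⟨W, h⟩
  have desc : ∀ m n i, 1 ≤ n → 1 ≤ i → i ≤ 2 ^ n → ∀ W, J.E (J.sA W) (V n i) → (cc W.1).Finite →
      m ≤ (cc W.1).ncard := by
    intro m
    induction m with
    | zero => intros; omega
    | succ m ih =>
      intro n i h1 h2 h3 W hW hf
      have h4 : 2 ≤ 2 ^ n := by simpa using Nat.pow_le_pow_right two_pos h1
      obtain ⟨j, a, b, d⟩ : ∃ j, 1 ≤ j ∧ j ≤ 2 ^ n ∧ i ≠ j :=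
        if h : i = 1 then ⟨2, by omega⟩ else ⟨1, by omega⟩
      obtain ⟨G, hG⟩ := ne n j h1 a b
      obtain ⟨U, U', e1, e2, e3, e4⟩ := step n i j h1 h2 h3 a b d W G hW hG
      obtain ⟨Z, -, f1, -, f2, -⟩ := step (n + 1) (2 * i - 1) (2 * i) (by omega) (by omega)
        (by omega) (by omega) (by omega) (by omega) U U' e1 e2
      have f3 : cc Z.1 ⊆ cc W.1 := fun k hk => (e3 (f2 hk).1).1
      obtain ⟨k, hk⟩ := (ky _ _ (by omega) (by omega) (by omega) _ e2).1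
      exact (ih _ _ (by omega) (by omega) (by omega) Z f1 (hf.subset f3)).trans_lt
        (ncard_lt_ncard ⟨f3, fun h => (f2 (h (e4 hk))).2 hk⟩ hf)
  obtain ⟨W, hW⟩ := ne 1 1 le_rfl le_rfl (by omega)
  obtain ⟨G, hG⟩ := ne 1 2 le_rfl (by omega) (by omega)
  obtain ⟨U, -, e1, -, e3, -⟩ := step 1 1 2 le_rfl le_rfl (by omega) (by omega) (by omega)
    (by omega) W G hW hG
  rcases (ky 1 2 le_rfl (by omega) (by omega) G hG).2 with h | h
  · exact absurd (desc _ 1 2 le_rfl (by omega) (by omega) G hG h) (Nat.not_succ_le_self _)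
  · exact absurd (desc _ _ _ (by omega) (by omega) (by omega) U e1
      (h.subset fun k hk => (e3 hk).2)) (Nat.not_succ_le_self _)

end Pool.Agent.Results.MP_ec7d96_lc.Model
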